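import Pool.Agent.Y407.LG.Act

/-!
# MP_c0a48b_al: subspace lattices over division rings in the lattice of local clones

Subspace lattices of finite-dimensional left vector spaces over (non-commutative) division rings
that act by continuous additive maps on a nonzero complete separable ultrametric normed group, the
sublattices of finite products of such lattices included, embed into the lattice of local clones.
-/

set_option autoImplicit false

namespace Pool.Agent.Results.MP_c0a48b_al.DivisionRings

open Cardinal Pool.H845.LocClone

/-- `D` acts from the right, by continuous additive maps, on a nonzero complete separable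
ultrametric normed group `C`: `C` is a right vector space over `D`, and `x ↦ x d` is continuous for
every `d ∈ D`. -/
def Acts (D : Type) [DivisionRing D] : Prop :=
  ∃ (C : Type) (_ : NormedAddCommGroup C) (_ : IsUltrametricDist C) (_ : CompleteSpace C)
    (_ : TopologicalSpace.SeparableSpace C) (_ : Nontrivial C) (_ : Module Dᵐᵒᵖ C),
    ContinuousConstSMul Dᵐᵒᵖ C

/-- **Main result.**
1. Every division ring with a ring homomorphism into a nonzero complete separable ultrametric
   normed ring acts; every field with at most `2^ℵ₀` elements acts.
2. Let `D i` be finitely many division rings that act, and let `V i` be a finite-dimensional left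
   vector space over `D i`.  Every lattice `L` that embeds into the product of the subspace lattices
   of the `V i` embeds into the lattice of local clones on `ℕ`. -/
theorem result :
    ((∀ (D A : Type) [DivisionRing D] [NormedRing A] [Nontrivial A] [IsUltrametricDist A]
      [CompleteSpace A] [TopologicalSpace.SeparableSpace A], (D →+* A) → Acts D) ∧
      ∀ (F : Type) [Field F], #F ≤ 𝔠 → Acts F) ∧
    ∀ (ι : Type) [Finite ι] (D V : ι → Type) [∀ i, DivisionRing (D i)]
      [∀ i, AddCommGroup (V i)] [∀ i, Module (D i) (V i)] [∀ i, Module.Finite (D i) (V i)],
      (∀ i, Acts (D i)) →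
      ∀ (L : Type) [Lattice L] (g : LatticeHom L (∀ i, Submodule (D i) (V i))),
        Function.Injective g → ∃ f : L → Ops, IsLatticeEmbedding f := by
  refine ⟨⟨fun D A _ _ _ _ _ _ σ => Y407.LG.acts_of_ring D A σ,
    fun F _ hF => Y407.LG.acts_of_field F hF⟩, ?_⟩
  intro ι _ D V _ _ _ _ hD L _ g hg
  have _ := Fintype.ofFinite ι
  exact (Y407.LG.Rep.comp
    (Y407.LG.Rep.pi fun i => Y407.LG.rep_of_acts (D i) (hD i) (V i)) g hg).clone

end Pool.Agent.Results.MP_c0a48b_al.DivisionRings
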