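import Pool.Agent.Y352.LL.Prod
import Pool.Agent.Y352.LL.Card

set_option autoImplicit false

/-! Lattices of finite height and cardinality `2^ℵ₀` that embed into the lattice of local clones on
a countably infinite set: the lattices of all subspaces of the finite-dimensional vector spaces
over the fields of cardinality `2^ℵ₀`, and finite products of such lattices over different fields.
More generally the lattice of the closed subgroups of every complete separable ultrametric abelian
group embeds completely. -/

universe u v

namespace Pool.Agent.Results.MP_c0a48b_al.SubspaceLattices

open Cardinal Module Pool.Agent.Y352.LL Pool.Agent.H146R3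

/-- Let `X` be a countably infinite set.

1. Let `F` be a field of cardinality `2^ℵ₀`, of any characteristic, and let `V` be a vector space
over `F` of finite dimension `d ≥ 2`.  The lattice of all subspaces of `V` has cardinality `2^ℵ₀`,
its chains have at most `d + 1` elements, and there is an injective map of it into the lattice of
local clones on `X` that preserves all suprema and the infima of all nonempty sets.

2. Such an embedding into the lattice of local clones on `X` exists for the direct product of the
subspace lattices of any finite family of finite-dimensional vector spaces over fields of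
cardinality at most `2^ℵ₀`; the fields may be different and of different characteristics.

3. For every complete separable ultrametric normed abelian group `A` the lattice of the closed
subgroups of `A` has such an embedding into the lattice of local clones on `X`. -/
theorem result (X : Type u) [Countable X] [Infinite X] :
    (∀ (F : Type v) [Field F], #F = 𝔠 → ∀ (V : Type v) [AddCommGroup V] [Module F V]
        [FiniteDimensional F V], 2 ≤ finrank F V →
      (∀ s : Set (Submodule F V), IsChain (· ≤ ·) s → s.encard ≤ ((finrank F V + 1 : ℕ) : ℕ∞)) ∧
      #(Submodule F V) = 𝔠 ∧
      ∃ f : Submodule F V → LocalClone X, IsCompleteEmbedding f) ∧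
    (∀ (ι : Type) [Fintype ι] (F : ι → Type v) [∀ i, Field (F i)], (∀ i, #(F i) ≤ 𝔠) →
      ∀ (V : ι → Type v) [∀ i, AddCommGroup (V i)] [∀ i, Module (F i) (V i)]
        [∀ i, FiniteDimensional (F i) (V i)],
      ∃ f : (∀ i, Submodule (F i) (V i)) → LocalClone X, IsCompleteEmbedding f) ∧
    ∀ (A : Type) [NormedAddCommGroup A] [IsUltrametricDist A] [CompleteSpace A]
        [TopologicalSpace.SeparableSpace A],
      ∃ f : ClosedSub A → LocalClone X, IsCompleteEmbedding f := by
  refine ⟨fun F _ hF V _ _ _ hV => ⟨chain_bound, card_submodule hF hV, ?_⟩, ?_, ?_⟩
  · obtain ⟨⟨f, hf⟩, -⟩ := exists_subspace_embeddings F hF.le V X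
    exact ⟨_, cloOf_isCompleteEmbedding.comp hf⟩
  · intro ι _ F _ hF V _ _ _
    exact exists_product_embedding X ι F hF V
  · intro A _ _ _ _
    obtain ⟨⟨f, hf⟩, -⟩ := exists_embeddings (A := A) X
    exact ⟨_, cloOf_isCompleteEmbedding.comp hf⟩

end Pool.Agent.Results.MP_c0a48b_al.SubspaceLattices
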